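import Pool.Agent.Helper83.RB.St

set_option autoImplicit false

namespace Pool.Agent.Helper41.RB

open Pool.Agent.Helper83.RB

/-- the representation given by an action on an elementary abelian group -/
private lemma dic_rep (p : ℕ) {G V : Type} [Group G] [CommGroup V]
    [Module (ZMod p) (Additive V)] (act : G →* MulAut V) :
    ∃ ρ : Representation (ZMod p) G (Additive V),
      ∀ (g : G) (v : V), ρ g (Additive.ofMul v) = Additive.ofMul (act g v) := by
  let ρ₀ : G → (Additive V →ₗ[ZMod p] Additive V) := fun g =>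
    AddMonoidHom.toZModLinearMap p (MonoidHom.toAdditive (act g).toMonoidHom)
  have hρ₀ : ∀ (g : G) (v : V), ρ₀ g (Additive.ofMul v) = Additive.ofMul (act g v) :=
    fun g v => rfl
  refine ⟨{ toFun := ρ₀, map_one' := ?_, map_mul' := ?_ }, fun g v => rfl⟩
  · apply LinearMap.ext
    intro w
    change ρ₀ 1 (Additive.ofMul w.toMul) = w
    rw [hρ₀, map_one]
    rfl
  · intro g h
    apply LinearMap.ext
    intro w
    change ρ₀ (g * h) (Additive.ofMul w.toMul) = ρ₀ g (ρ₀ h (Additive.ofMul w.toMul))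
    rw [hρ₀, hρ₀, hρ₀, map_mul]
    rfl

/-- the relation -/
private lemma dic_rel (p d : ℕ) {G V : Type} [Group G] [CommGroup V]
    [Module (ZMod p) (Additive V)] (act : G →* MulAut V)
    (ρ : Representation (ZMod p) G (Additive V))
    (hρ : ∀ (g : G) (v : V), ρ g (Additive.ofMul v) = Additive.ofMul (act g v))
    (a : Equiv.Perm (Fin d) → ℕ) (ha : ∃ σ, ¬ p ∣ a σ)
    (hrel : ∀ (g : Fin d → G) (v : V),
      ∏ σ : Equiv.Perm (Fin d), (act (List.ofFn fun i => g (σ i)).prod v) ^ a σ = 1) :
    MLRel p d ρ := by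
  refine ⟨fun σ => (a σ : ZMod p), ?_, ?_⟩
  · obtain ⟨σ, hσ⟩ := ha
    intro h
    apply hσ
    have h1 := congrFun h σ
    simp only [Pi.zero_apply] at h1
    exact (ZMod.natCast_eq_zero_iff (a σ) p).1 h1
  · intro g
    apply LinearMap.ext
    intro w
    have hw : w = Additive.ofMul w.toMul := rfl
    rw [LinearMap.sum_apply, LinearMap.zero_apply]
    have h1 : ∀ σ : Equiv.Perm (Fin d),
        ((a σ : ZMod p) • ρ (List.ofFn fun i => g (σ i)).prod) w =
          Additive.ofMul ((act (List.ofFn fun i => g (σ i)).prod w.toMul) ^ a σ) := by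
      intro σ
      rw [LinearMap.smul_apply, hw, hρ, Nat.cast_smul_eq_nsmul]
      rfl
    rw [Finset.sum_congr rfl fun σ _ => h1 σ, ← ofMul_prod, hrel g w.toMul]
    rfl

private lemma dic_ker (p : ℕ) {G V : Type} [Group G] [CommGroup V]
    [Module (ZMod p) (Additive V)] (act : G →* MulAut V)
    (ρ : Representation (ZMod p) G (Additive V))
    (hρ : ∀ (g : G) (v : V), ρ g (Additive.ofMul v) = Additive.ofMul (act g v)) (g : G)
    (hg : g ∈ (⨅ _i : Unit, ρ.ker : Subgroup G)) (v : V) : act g v = v := by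
  rw [Subgroup.mem_iInf] at hg
  have h1 : ρ g = 1 := hg ()
  have h2 := hρ g v
  rw [h1] at h2
  exact (Additive.ofMul.injective h2).symm

private lemma dic_der {G : Type} [Group G] (K : Subgroup G)
    (h : ∀ x ∈ K, ∀ y ∈ K, x * y = y * x) : derivedSeries K 1 = ⊥ := by
  rw [derivedSeries_one, eq_bot_iff, commutator_def, Subgroup.commutator_le]
  intro x _ y _
  rw [Subgroup.mem_bot, commutatorElement_eq_one_iff_mul_comm]
  exact Subtype.ext (h x.1 x.2 y.1 y.2)

theorem hDIC (hINN : StINN) : StDIC := by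
  intro p d _
  obtain ⟨C, hC⟩ := hINN p d 1
  refine ⟨C, ?_⟩
  intro m G _ _ hexp hgen V _ hVc hVz a ha hrel
  let cV : CommGroup V :=
    { (inferInstance : Group V) with
      mul_comm := fun x y => Subtype.ext (hVc x.1 x.2 y.1 y.2) }
  have hVp : ∀ x : Additive V, p • x = 0 := by
    intro x
    have h1 : (x.toMul : V) ^ p = 1 := Subtype.ext (by
      rw [Subgroup.coe_pow, Subgroup.coe_one]; exact hexp _)
    exact congrArg Additive.ofMul h1
  let _ : Module (ZMod p) (Additive V) := AddCommGroup.zmodModule hVp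
  obtain ⟨ρ, hρ⟩ := dic_rep p (G := G) (V := V) MulAut.conjNormal
  refine hC m G hexp hgen Unit (fun _ => Additive V) (fun _ => ρ) ?_ ?_
  · intro _
    refine dic_rel p d MulAut.conjNormal ρ hρ a ha ?_
    intro g v
    rw [← Finset.prod_map_toList]
    apply Subtype.ext
    have h3 := hrel g v.1 v.2
    rw [← Subgroup.coe_subtype, map_list_prod, List.map_map]
    exact h3
  · apply dic_der
    have hV : ∀ g, (∀ v : V, (MulAut.conjNormal g : V ≃* V) v = v) → g ∈ V := by
      intro g hg
      apply hVz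
      intro v hv
      have h4 := congrArg Subtype.val (hg ⟨v, hv⟩)
      rw [MulAut.conjNormal_apply] at h4
      change g * v * g⁻¹ = v at h4
      rwa [mul_inv_eq_iff_eq_mul] at h4
    intro x hx y hy
    exact hVc x (hV x (dic_ker p MulAut.conjNormal ρ hρ x hx)) y
      (hV y (dic_ker p MulAut.conjNormal ρ hρ y hy))

end Pool.Agent.Helper41.RB
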